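import Pool.Agent.W907.SG.Stmts2

/-!
The Euler characteristic of the right-angled Coxeter group of an edge subdivision.
-/

set_option autoImplicit false
set_option linter.unusedSectionVars false

open scoped Classical

namespace Pool.Agent.Q134.SE

open Pool.Agent.W907.SG

variable {V : Type} [Fintype V] (G : SimpleGraph V) (s t : V)

/-- the term of a vertex set in the Euler characteristic -/
noncomputable def tm {U : Type} (G : SimpleGraph U) (T : Finset U) : ℚ :=
  if G.IsClique (T : Set U) then (-1 / 2 : ℚ) ^ T.card else 0

lemma chiW_eq {U : Type} [Fintype U] (G : SimpleGraph U) : chiW G = ∑ T : Finset U, tm G T := by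
  unfold chiW tm
  refine Finset.sum_congr rfl fun T _ => ?_
  congr

/-- sum over the subsets of a set with two distinguished elements -/
lemma sum_two {s t : V} (hst : s ≠ t) (f : Finset V → ℚ) :
    ∑ T : Finset V, f T = ∑ T ∈ ((Finset.univ.erase t).erase s).powerset,
      (f T + f (insert s T) + (f (insert t T) + f (insert t (insert s T)))) := by
  have h1 : (Finset.univ : Finset (Finset V)) = (Finset.univ : Finset V).powerset := by
    ext; simp
  have h2 : (Finset.univ : Finset V) = insert t (Finset.univ.erase t) := by simp
  have h3 : (Finset.univ.erase t : Finset V) = insert s ((Finset.univ.erase t).erase s) := by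
    rw [Finset.insert_erase]
    simp [hst]
  have h4 : s ∉ (Finset.univ.erase t).erase s := Finset.notMem_erase _ _
  have h5 : t ∉ (Finset.univ.erase t : Finset V) := Finset.notMem_erase _ _
  rw [h1]
  conv_lhs => rw [h2]
  rw [Finset.sum_powerset_insert h5]
  generalize hR : (Finset.univ.erase t).erase s = R at *
  rw [h3, Finset.sum_powerset_insert h4, Finset.sum_powerset_insert h4]
  rw [← Finset.sum_add_distrib, ← Finset.sum_add_distrib, ← Finset.sum_add_distrib]

/-- sum over the subsets of `Option V` -/
lemma sum_option (f : Finset (Option V) → ℚ) :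
    ∑ T : Finset (Option V), f T = ∑ T : Finset V,
      (f (T.map Function.Embedding.some) + f (insert none (T.map Function.Embedding.some))) := by
  have h1 : (Finset.univ : Finset (Finset (Option V))) = (Finset.univ : Finset (Option V)).powerset := by
    ext; simp
  have h2 : (Finset.univ : Finset (Option V)) =
      insert none ((Finset.univ : Finset V).map Function.Embedding.some) := by
    ext x
    cases x <;> simp
  have h3 : ((Finset.univ : Finset V).map Function.Embedding.some).powerset =
      (Finset.univ : Finset (Finset V)).map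
        ⟨fun T => T.map Function.Embedding.some, Finset.map_injective _⟩ := by
    ext T
    simp only [Finset.mem_powerset, Finset.mem_map, Finset.mem_univ, true_and,
      Function.Embedding.coeFn_mk]
    constructor
    · intro h
      obtain ⟨u, -, hu⟩ := Finset.subset_map_iff.1 h
      exact ⟨u, hu.symm⟩
    · rintro ⟨u, rfl⟩
      exact Finset.map_subset_map.2 (Finset.subset_univ _)
  rw [h1, h2, Finset.sum_powerset_insert (by simp), h3, Finset.sum_map, Finset.sum_map,
    ← Finset.sum_add_distrib]
  rfl

/-- the sum over the cliques of an induced subgraph -/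
lemma chiW_induce (K : Set V) [Fintype K] :
    chiW (G.induce K) = ∑ T : Finset V, if (T : Set V) ⊆ K then tm G T else 0 := by
  rw [chiW_eq, ← Finset.sum_filter]
  refine Finset.sum_bij (fun (T : Finset K) _ => T.map (Function.Embedding.subtype _)) ?_ ?_ ?_ ?_
  · intro T _
    simp only [Finset.mem_filter, Finset.mem_univ, true_and]
    intro x hx
    simp only [Finset.coe_map, Set.mem_image, Finset.mem_coe] at hx
    obtain ⟨y, -, rfl⟩ := hx
    exact y.2
  · intro T _ T' _ h
    exact Finset.map_injective _ h
  · intro T hT
    simp only [Finset.mem_filter, Finset.mem_univ, true_and] at hT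
    refine ⟨T.subtype (· ∈ K), Finset.mem_univ _, ?_⟩
    ext x
    simp only [Finset.mem_map, Finset.mem_subtype, Function.Embedding.subtype_apply,
      Subtype.exists, exists_and_left, exists_prop, exists_eq_right_right]
    exact ⟨fun h => h.1, fun h => ⟨h, hT h⟩⟩
  · intro T _
    unfold tm
    have : (G.induce K).IsClique (T : Set K) ↔
        G.IsClique ((T.map (Function.Embedding.subtype _) : Finset V) : Set V) := by
      rw [Finset.coe_map, SimpleGraph.isClique_iff, SimpleGraph.isClique_iff, Set.Pairwise,
        Set.Pairwise]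
      constructor
      · rintro h _ ⟨x, hx, rfl⟩ _ ⟨y, hy, rfl⟩ hxy
        exact h hx hy (fun e => hxy (by rw [e]))
      · intro h x hx y hy hxy
        exact h ⟨x, hx, rfl⟩ ⟨y, hy, rfl⟩ (fun e => hxy (Subtype.ext e))
    rw [Finset.card_map]
    simp only [this]

/-- the cliques of an edge subdivision without the new vertex -/
lemma clique_some (T : Finset V) :
    (esub G s t).IsClique ((T.map Function.Embedding.some : Finset (Option V)) : Set (Option V)) ↔
      G.IsClique (T : Set V) ∧ (s = t ∨ ¬ (s ∈ T ∧ t ∈ T)) := by
  rw [Finset.coe_map, SimpleGraph.isClique_iff, SimpleGraph.isClique_iff, Set.Pairwise,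
        Set.Pairwise]
  constructor
  · intro h
    refine ⟨fun x hx y hy hxy => ?_, ?_⟩
    · exact (h ⟨x, hx, rfl⟩ ⟨y, hy, rfl⟩ (fun e => hxy (Option.some_injective _ e))).1
    · by_contra hc
      push Not at hc
      have := h ⟨s, hc.2.1, rfl⟩ ⟨t, hc.2.2, rfl⟩ (fun e => hc.1 (Option.some_injective _ e))
      exact this.2.1 ⟨rfl, rfl⟩
  · rintro ⟨h, h2⟩ _ ⟨x, hx, rfl⟩ _ ⟨y, hy, rfl⟩ hxy
    have hxy' : x ≠ y := fun e => hxy (by rw [e])
    refine ⟨h hx hy hxy', ?_, ?_⟩
    · rintro ⟨rfl, rfl⟩
      rcases h2 with h2 | h2
      · exact hxy' h2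
      · exact h2 ⟨hx, hy⟩
    · rintro ⟨rfl, rfl⟩
      rcases h2 with h2 | h2
      · exact hxy' h2.symm
      · exact h2 ⟨hy, hx⟩

/-- the cliques of an edge subdivision with the new vertex -/
lemma clique_none (T : Finset V) :
    (esub G s t).IsClique ((insert none (T.map Function.Embedding.some) :
      Finset (Option V)) : Set (Option V)) ↔
      (esub G s t).IsClique ((T.map Function.Embedding.some : Finset (Option V)) : Set (Option V)) ∧
        ∀ a ∈ T, a = s ∨ a = t ∨ (G.Adj a s ∧ G.Adj a t) := by
  rw [Finset.coe_insert, SimpleGraph.isClique_insert]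
  refine and_congr_right fun _ => ?_
  constructor
  · intro h a ha
    exact h (some a) (by simp [ha]) (by simp)
  · intro h b hb _
    simp only [Finset.coe_map, Set.mem_image, Finset.mem_coe] at hb
    obtain ⟨a, ha, rfl⟩ := hb
    exact h a ha

/-- the four cases -/
lemma tm_some (T : Finset V) : tm (esub G s t) (T.map Function.Embedding.some) =
    if s = t ∨ ¬ (s ∈ T ∧ t ∈ T) then tm G T else 0 := by
  unfold tm
  rw [Finset.card_map]
  by_cases h : s = t ∨ ¬ (s ∈ T ∧ t ∈ T)
  · rw [if_pos h]
    have : (esub G s t).IsClique ((T.map Function.Embedding.some : Finset (Option V)) :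
        Set (Option V)) ↔ G.IsClique (T : Set V) := by
      rw [clique_some]; exact ⟨fun h => h.1, fun h' => ⟨h', h⟩⟩
    simp only [this]
  · rw [if_neg h, if_neg]
    rw [clique_some]
    exact fun h' => h h'.2

lemma tm_none (T : Finset V) : tm (esub G s t) (insert none (T.map Function.Embedding.some)) =
    if ∀ a ∈ T, a = s ∨ a = t ∨ (G.Adj a s ∧ G.Adj a t) then
      (-1 / 2) * tm (esub G s t) (T.map Function.Embedding.some) else 0 := by
  have hc : (insert none (T.map Function.Embedding.some) : Finset (Option V)).card =
      (T.map Function.Embedding.some).card + 1 := by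
    rw [Finset.card_insert_of_notMem (by simp)]
  by_cases h : ∀ a ∈ T, a = s ∨ a = t ∨ (G.Adj a s ∧ G.Adj a t)
  · rw [if_pos h]
    unfold tm
    rw [hc]
    have : (esub G s t).IsClique ((insert none (T.map Function.Embedding.some) :
        Finset (Option V)) : Set (Option V)) ↔
        (esub G s t).IsClique ((T.map Function.Embedding.some : Finset (Option V)) :
          Set (Option V)) := by
      rw [clique_none]; exact ⟨fun h => h.1, fun h' => ⟨h', h⟩⟩
    simp only [this]
    split_ifs
    · rw [pow_succ]; ring
    · rw [mul_zero]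
  · rw [if_neg h]
    unfold tm
    rw [if_neg]
    rw [clique_none]
    exact fun h' => h h'.2

/-- **The Euler characteristic of an edge subdivision.** -/
theorem chiW_esub (hst : G.Adj s t) [Fintype ↥(G.neighborSet s ∩ G.neighborSet t)] :
    chiW (esub G s t) =
      chiW G - 1 / 4 * chiW (G.induce (G.neighborSet s ∩ G.neighborSet t)) := by
  have hne : s ≠ t := hst.ne
  rw [chiW_eq (esub G s t), sum_option, sum_two hne, chiW_eq G, sum_two hne, chiW_induce,
    sum_two hne, Finset.mul_sum, ← Finset.sum_sub_distrib]
  refine Finset.sum_congr rfl fun T hT => ?_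
  have hs : s ∉ T := fun h => by
    have := Finset.mem_powerset.1 hT h
    simp at this
  have ht : t ∉ T := fun h => by
    have := Finset.mem_powerset.1 hT h
    simp at this
  have hts : t ∉ insert s T := by
    rw [Finset.mem_insert]
    rintro (h | h)
    · exact hne h.symm
    · exact ht h
  have e1 : tm (esub G s t) (T.map Function.Embedding.some) = tm G T := by
    rw [tm_some, if_pos (Or.inr fun h => hs h.1)]
  have e2 : tm (esub G s t) ((insert s T).map Function.Embedding.some) = tm G (insert s T) := by
    rw [tm_some, if_pos (Or.inr fun h => hts h.2)]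
  have e3 : tm (esub G s t) ((insert t T).map Function.Embedding.some) = tm G (insert t T) := by
    rw [tm_some, if_pos]
    refine Or.inr fun h => ?_
    rcases Finset.mem_insert.1 h.1 with h' | h'
    · exact hne h'
    · exact hs h'
  have e4 : tm (esub G s t) ((insert t (insert s T)).map Function.Embedding.some) = 0 := by
    rw [tm_some, if_neg]
    push Not
    exact ⟨hne, by simp, by simp⟩
  rw [tm_none, tm_none, tm_none, tm_none, e1, e2, e3, e4, mul_zero, ite_self]
  have hK2 : ¬ ((insert s T : Finset V) : Set V) ⊆ G.neighborSet s ∩ G.neighborSet t := fun h => by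
    have := (h (Finset.mem_coe.2 (Finset.mem_insert_self s T))).1
    exact G.loopless.irrefl s this
  have hK3 : ¬ ((insert t T : Finset V) : Set V) ⊆ G.neighborSet s ∩ G.neighborSet t := fun h => by
    have := (h (Finset.mem_coe.2 (Finset.mem_insert_self t T))).2
    exact G.loopless.irrefl t this
  have hK4 : ¬ ((insert t (insert s T) : Finset V) : Set V) ⊆
      G.neighborSet s ∩ G.neighborSet t := fun h => by
    have := (h (Finset.mem_coe.2 (Finset.mem_insert_self t _))).2
    exact G.loopless.irrefl t this
  rw [if_neg hK2, if_neg hK3, if_neg hK4]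
  by_cases hK : (T : Set V) ⊆ G.neighborSet s ∩ G.neighborSet t
  · have hadj : ∀ a ∈ T, G.Adj s a ∧ G.Adj t a := fun a ha => hK (Finset.mem_coe.2 ha)
    have c1 : ∀ a ∈ T, a = s ∨ a = t ∨ (G.Adj a s ∧ G.Adj a t) := fun a ha =>
      Or.inr (Or.inr ⟨(hadj a ha).1.symm, (hadj a ha).2.symm⟩)
    have c2 : ∀ a ∈ insert s T, a = s ∨ a = t ∨ (G.Adj a s ∧ G.Adj a t) := fun a ha => by
      rcases Finset.mem_insert.1 ha with rfl | h
      · exact Or.inl rfl
      · exact c1 a h
    have c3 : ∀ a ∈ insert t T, a = s ∨ a = t ∨ (G.Adj a s ∧ G.Adj a t) := fun a ha => by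
      rcases Finset.mem_insert.1 ha with rfl | h
      · exact Or.inr (Or.inl rfl)
      · exact c1 a h
    rw [if_pos hK, if_pos c1, if_pos c2, if_pos c3]
    have b1 : tm G (insert s T) = (-1 / 2) * tm G T := by
      unfold tm
      have : G.IsClique ((insert s T : Finset V) : Set V) ↔ G.IsClique (T : Set V) := by
        rw [Finset.coe_insert, SimpleGraph.isClique_insert]
        exact ⟨fun h => h.1, fun h => ⟨h, fun b hb _ => (hadj b hb).1⟩⟩
      simp only [this]
      rw [Finset.card_insert_of_notMem hs]
      split_ifs
      · rw [pow_succ]; ring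
      · rw [mul_zero]
    have b2 : tm G (insert t T) = (-1 / 2) * tm G T := by
      unfold tm
      have : G.IsClique ((insert t T : Finset V) : Set V) ↔ G.IsClique (T : Set V) := by
        rw [Finset.coe_insert, SimpleGraph.isClique_insert]
        exact ⟨fun h => h.1, fun h => ⟨h, fun b hb _ => (hadj b hb).2⟩⟩
      simp only [this]
      rw [Finset.card_insert_of_notMem ht]
      split_ifs
      · rw [pow_succ]; ring
      · rw [mul_zero]
    have b3 : tm G (insert t (insert s T)) = (-1 / 2) * tm G (insert s T) := by
      unfold tm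
      have : G.IsClique ((insert t (insert s T) : Finset V) : Set V) ↔
          G.IsClique ((insert s T : Finset V) : Set V) := by
        rw [Finset.coe_insert, SimpleGraph.isClique_insert]
        refine ⟨fun h => h.1, fun h => ⟨h, fun b hb _ => ?_⟩⟩
        rcases Finset.mem_insert.1 (Finset.mem_coe.1 hb) with rfl | h
        · exact hst.symm
        · exact (hadj b h).2
      simp only [this]
      rw [Finset.card_insert_of_notMem hts]
      split_ifs
      · rw [pow_succ]; ring
      · rw [mul_zero]
    rw [b3, b1, b2]
    ring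
  · rw [if_neg hK]
    have c1 : ¬ ∀ a ∈ T, a = s ∨ a = t ∨ (G.Adj a s ∧ G.Adj a t) := fun h => by
      apply hK
      intro a ha
      rcases h a (Finset.mem_coe.1 ha) with rfl | rfl | h
      · exact absurd (Finset.mem_coe.1 ha) hs
      · exact absurd (Finset.mem_coe.1 ha) ht
      · exact ⟨h.1.symm, h.2.symm⟩
    have c2 : ¬ ∀ a ∈ insert s T, a = s ∨ a = t ∨ (G.Adj a s ∧ G.Adj a t) := fun h =>
      c1 fun a ha => h a (Finset.mem_insert_of_mem ha)
    have c3 : ¬ ∀ a ∈ insert t T, a = s ∨ a = t ∨ (G.Adj a s ∧ G.Adj a t) := fun h =>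
      c1 fun a ha => h a (Finset.mem_insert_of_mem ha)
    rw [if_neg c1, if_neg c2, if_neg c3]
    have b3 : tm G (insert t (insert s T)) = 0 := by
      unfold tm
      rw [if_neg]
      intro hcl
      apply hK
      intro a ha
      have has : a ≠ s := fun e => hs (e ▸ Finset.mem_coe.1 ha)
      have hat : a ≠ t := fun e => ht (e ▸ Finset.mem_coe.1 ha)
      have ha' : a ∈ ((insert t (insert s T) : Finset V) : Set V) := by simp [Finset.mem_coe.1 ha]
      exact ⟨hcl (by simp) ha' has.symm, hcl (by simp) ha' hat.symm⟩
    rw [b3]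
    ring

end Pool.Agent.Q134.SE
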